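import Pool.Agent.N661.BR.Stm5
import Pool.Agent.N661.BR.Base
import Pool.Agent.N878.BR.BochA

/-!
# The covariance function of a stationary wave
-/

set_option autoImplicit false
set_option linter.all false

open MeasureTheory Filter Topology ProbabilityTheory
open scoped ContDiff

namespace Pool.Agent.N878.BR

open Pool.Agent.W745.RW (lap dx dy TF)
open Pool.Agent.N661.BR
open Pool.Agent.H506R3.Mag (PSDFun bochner)

section

variable {μ : Measure MW}

theorem int_sq (hst : IsStationary μ) (hi : Integrable (fun f : MW => f 0 ^ 2) μ) (w : ℂ) :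
    Integrable (fun f : MW => f w ^ 2) μ := by
  have h1 : Integrable (fun f : MW => f 0 ^ 2) (μ.map (shift w)) := by rw [hst w]; exact hi
  have h2 := (integrable_map_measure ((meas_eval 0).pow_const 2).aestronglyMeasurable
    (meas_shift w).aemeasurable).1 h1
  refine h2.congr (Eventually.of_forall fun f => ?_)
  show f (0 + w) ^ 2 = f w ^ 2
  rw [zero_add]

theorem mlp (hst : IsStationary μ) (hi : Integrable (fun f : MW => f 0 ^ 2) μ) (w : ℂ) :
    MemLp (fun f : MW => f w) 2 μ :=
  (memLp_two_iff_integrable_sq (meas_eval w).aestronglyMeasurable).2 (int_sq hst hi w)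

theorem int_mul (hst : IsStationary μ) (hi : Integrable (fun f : MW => f 0 ^ 2) μ) (w w' : ℂ) :
    Integrable (fun f : MW => f w * f w') μ :=
  (mlp hst hi w).integrable_mul (mlp hst hi w')

/-- the covariance function -/
noncomputable def cf (μ : Measure MW) (w : ℂ) : ℝ := ∫ f : MW, f w * f 0 ∂μ

theorem cf_eq (hst : IsStationary μ) (w w' : ℂ) :
    ∫ f : MW, f w * f w' ∂μ = cf μ (w - w') := by
  have h1 : cf μ (w - w') = ∫ f : MW, f (w - w') * f 0 ∂(μ.map (shift w')) := by
    rw [hst w']; rfl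
  have h2 : Measurable (fun f : MW => f (w - w') * f 0) :=
    (meas_eval (w - w')).mul (meas_eval 0)
  rw [h1, integral_map (meas_shift w').aemeasurable h2.aestronglyMeasurable]
  refine integral_congr_ae (Eventually.of_forall fun f => ?_)
  show f w * f w' = f (w - w' + w') * f (0 + w')
  rw [sub_add_cancel, zero_add]

theorem cf_sq (hst : IsStationary μ) (w : ℂ) : ∫ f : MW, f w ^ 2 ∂μ = cf μ 0 := by
  rw [← sub_self w, ← cf_eq hst]
  exact integral_congr_ae (Eventually.of_forall fun f => sq _)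

theorem cf_nonneg (hst : IsStationary μ) : 0 ≤ cf μ 0 := by
  rw [← cf_sq hst 0]
  exact integral_nonneg fun f => sq_nonneg _

theorem cf_even (hst : IsStationary μ) (x : ℂ) : cf μ (-x) = cf μ x := by
  rw [← zero_sub x, ← cf_eq hst]
  exact integral_congr_ae (Eventually.of_forall fun f => mul_comm _ _)

theorem cf_psd (hst : IsStationary μ) (hi : Integrable (fun f : MW => f 0 ^ 2) μ) :
    PSDFun (cf μ) := by
  intro s w
  have h1 : ∑ x ∈ s, ∑ y ∈ s, w x * w y * cf μ (x - y) =
      ∫ f : MW, ∑ x ∈ s, ∑ y ∈ s, w x * w y * (f x * f y) ∂μ := by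
    rw [integral_finsetSum]
    · refine Finset.sum_congr rfl fun x _ => ?_
      rw [integral_finsetSum]
      · refine Finset.sum_congr rfl fun y _ => ?_
        rw [integral_const_mul, cf_eq hst]
      · exact fun y _ => (int_mul hst hi x y).const_mul _
    · exact fun x _ => integrable_finsetSum _ fun y _ => (int_mul hst hi x y).const_mul _
  rw [h1]
  refine integral_nonneg fun f => ?_
  have h2 : ∑ x ∈ s, ∑ y ∈ s, w x * w y * (f x * f y) = (∑ x ∈ s, w x * f x) ^ 2 := by
    rw [sq, Finset.sum_mul_sum]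
    exact Finset.sum_congr rfl fun x _ => Finset.sum_congr rfl fun y _ => by ring
  show 0 ≤ ∑ x ∈ s, ∑ y ∈ s, w x * w y * (f x * f y)
  rw [h2]
  exact sq_nonneg _

/-- the variance of `f x + t f y` -/
theorem var_add (hst : IsStationary μ) (hi : Integrable (fun f : MW => f 0 ^ 2) μ) (x y : ℂ)
    (t : ℝ) : ∫ f : MW, (f x + t * f y) ^ 2 ∂μ =
      cf μ 0 + 2 * t * cf μ (x - y) + t ^ 2 * cf μ 0 := by
  have h1 : ∀ f : MW, (f x + t * f y) ^ 2 = f x ^ 2 + 2 * t * (f x * f y) + t ^ 2 * f y ^ 2 :=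
    fun f => by ring
  simp_rw [h1]
  rw [integral_add, integral_add, integral_const_mul, integral_const_mul, cf_sq hst, cf_sq hst,
    cf_eq hst]
  · exact int_sq hst hi x
  · exact (int_mul hst hi x y).const_mul _
  · exact (int_sq hst hi x).add ((int_mul hst hi x y).const_mul _)
  · exact (int_sq hst hi y).const_mul _

theorem cf_abs (hst : IsStationary μ) (hi : Integrable (fun f : MW => f 0 ^ 2) μ) (x : ℂ) :
    |cf μ x| ≤ cf μ 0 := by
  have h1 : 0 ≤ cf μ 0 + 2 * 1 * cf μ (x - 0) + 1 ^ 2 * cf μ 0 := by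
    rw [← var_add hst hi]
    exact integral_nonneg fun f => sq_nonneg _
  have h2 : 0 ≤ cf μ 0 + 2 * (-1) * cf μ (x - 0) + (-1) ^ 2 * cf μ 0 := by
    rw [← var_add hst hi]
    exact integral_nonneg fun f => sq_nonneg _
  rw [sub_zero] at h1 h2
  rw [abs_le]
  constructor <;> linarith

theorem cf_seq (hst : IsStationary μ) (hi : Integrable (fun f : MW => f 0 ^ 2) μ)
    (h : ℕ → ℂ) (hh : Tendsto h atTop (𝓝 0)) :
    Tendsto (fun n => cf μ (h n)) atTop (𝓝 (cf μ 0)) := by
  have hm := cf_nonneg hst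
  rcases hm.eq_or_lt with hm0 | hm0
  · have : ∀ x, cf μ x = 0 := fun x => by
      have := cf_abs hst hi x
      rw [← hm0] at this
      exact abs_nonpos_iff.1 this
    simp_rw [this]
    exact tendsto_const_nhds
  -- Fatou
  have hF : ENNReal.ofReal (4 * cf μ 0) ≤
      liminf (fun n => ENNReal.ofReal (2 * cf μ 0 + 2 * cf μ (h n))) atTop := by
    have h1 := lintegral_liminf_le (μ := μ) (u := (atTop : Filter ℕ)) (f := fun (n : ℕ) (f : MW) =>
      ENNReal.ofReal ((f (h n) + 1 * f 0) ^ 2)) (fun n =>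
        (((meas_eval (h n)).add ((meas_eval 0).const_mul 1)).pow_const 2).ennreal_ofReal)
    have h2 : ∀ n, ∫⁻ f : MW, ENNReal.ofReal ((f (h n) + 1 * f 0) ^ 2) ∂μ =
        ENNReal.ofReal (2 * cf μ 0 + 2 * cf μ (h n)) := by
      intro n
      rw [← ofReal_integral_eq_lintegral_ofReal]
      · rw [var_add hst hi, sub_zero]
        congr 1
        ring
      · exact ((mlp hst hi (h n)).add ((mlp hst hi 0).const_mul 1)).integrable_sq
      · exact Eventually.of_forall fun f => sq_nonneg _
    have h3 : ∀ f : MW, liminf (fun n => ENNReal.ofReal ((f (h n) + 1 * f 0) ^ 2)) atTop =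
        ENNReal.ofReal (4 * f 0 ^ 2) := by
      intro f
      have hc : Continuous f.1 := f.2.1.continuous
      have h4 : Tendsto (fun n => (f (h n) + 1 * f 0) ^ 2) atTop (𝓝 ((f 0 + 1 * f 0) ^ 2)) :=
        (((hc.tendsto 0).comp hh).add_const _).pow 2
      have h5 : (f 0 + 1 * f 0) ^ 2 = 4 * f 0 ^ 2 := by ring
      rw [h5] at h4
      exact ((ENNReal.continuous_ofReal.tendsto _).comp h4).liminf_eq
    simp_rw [h2, h3] at h1
    rw [← ofReal_integral_eq_lintegral_ofReal (hi.const_mul 4)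
      (Eventually.of_forall fun f => by positivity), integral_const_mul, cf_sq hst] at h1
    exact h1
  rw [Metric.tendsto_atTop]
  intro ε hε
  by_contra hcon
  push Not at hcon
  have h1 : liminf (fun n => ENNReal.ofReal (2 * cf μ 0 + 2 * cf μ (h n))) atTop ≤
      ENNReal.ofReal (4 * cf μ 0 - 2 * ε) := by
    refine liminf_le_of_frequently_le' (frequently_atTop.2 fun N => ?_)
    obtain ⟨n, hn, hn2⟩ := hcon N
    refine ⟨n, hn, ENNReal.ofReal_le_ofReal ?_⟩
    rw [Real.dist_eq] at hn2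
    have h3 := (abs_le.1 (cf_abs hst hi (h n))).2
    rw [abs_of_nonpos (by linarith)] at hn2
    linarith
  have h2 := hF.trans h1
  rw [ENNReal.ofReal_le_ofReal_iff'] at h2
  rcases h2 with h2 | h2 <;> linarith

theorem cf_diff (hst : IsStationary μ) (hi : Integrable (fun f : MW => f 0 ^ 2) μ) (x y : ℂ) :
    (cf μ x - cf μ y) ^ 2 ≤ cf μ 0 * (2 * cf μ 0 - 2 * cf μ (x - y)) := by
  have hm := cf_nonneg hst
  rcases hm.eq_or_lt with hm0 | hm0
  · have : ∀ x, cf μ x = 0 := fun x => by
      have := cf_abs hst hi x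
      rw [← hm0] at this
      exact abs_nonpos_iff.1 this
    simp [this]
  have key : ∀ s : ℝ, 0 ≤ (2 * cf μ 0 - 2 * cf μ (x - y)) + 2 * s * (cf μ x - cf μ y) +
      s ^ 2 * cf μ 0 := by
    intro s
    have h1 : 0 ≤ ∫ f : MW, ((f x + (-1) * f y) + s * f 0) ^ 2 ∂μ :=
      integral_nonneg fun f => sq_nonneg _
    have h2 : ∀ f : MW, ((f x + (-1) * f y) + s * f 0) ^ 2 =
        (f x + (-1) * f y) ^ 2 + (2 * s) * (f x * f 0) + (-(2 * s)) * (f y * f 0) +
          s ^ 2 * f 0 ^ 2 := fun f => by ring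
    simp_rw [h2] at h1
    have i1 : Integrable (fun f : MW => (f x + (-1) * f y) ^ 2) μ :=
      ((mlp hst hi x).add ((mlp hst hi y).const_mul (-1))).integrable_sq
    have i2 := (int_mul hst hi x 0).const_mul (2 * s)
    have i3 := (int_mul hst hi y 0).const_mul (-(2 * s))
    have i4 := (int_sq hst hi 0).const_mul (s ^ 2)
    have i12 : Integrable (fun f : MW => (f x + (-1) * f y) ^ 2 + (2 * s) * (f x * f 0)) μ :=
      i1.add i2
    have i123 : Integrable (fun f : MW => (f x + (-1) * f y) ^ 2 + (2 * s) * (f x * f 0) +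
      (-(2 * s)) * (f y * f 0)) μ := i12.add i3
    rw [integral_add i123 i4, integral_add i12 i3, integral_add i1 i2,
      integral_const_mul, integral_const_mul, integral_const_mul, cf_sq hst, cf_eq hst,
      cf_eq hst, var_add hst hi, sub_zero, sub_zero] at h1
    linarith
  have h3 := key (-(cf μ x - cf μ y) / cf μ 0)
  have h4 : (2 * cf μ 0 - 2 * cf μ (x - y)) + 2 * (-(cf μ x - cf μ y) / cf μ 0) *
      (cf μ x - cf μ y) + (-(cf μ x - cf μ y) / cf μ 0) ^ 2 * cf μ 0 =
      (2 * cf μ 0 - 2 * cf μ (x - y)) - (cf μ x - cf μ y) ^ 2 / cf μ 0 := by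
    field_simp
    ring
  rw [h4] at h3
  have h5 : (cf μ x - cf μ y) ^ 2 / cf μ 0 ≤ 2 * cf μ 0 - 2 * cf μ (x - y) := by linarith
  rw [div_le_iff₀ hm0] at h5
  linarith

theorem cf_cont (hst : IsStationary μ) (hi : Integrable (fun f : MW => f 0 ^ 2) μ) :
    Continuous (cf μ) := by
  refine continuous_iff_seqContinuous.2 fun x a hx => ?_
  have h1 : Tendsto (fun n => x n - a) atTop (𝓝 0) := by
    have := hx.sub_const a
    rwa [sub_self] at this
  have h2 := cf_seq hst hi _ h1
  have h3 : Tendsto (fun n => cf μ 0 * (2 * cf μ 0 - 2 * cf μ (x n - a))) atTop (𝓝 0) := by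
    have := ((h2.const_mul 2).const_sub (2 * cf μ 0)).const_mul (cf μ 0)
    rwa [sub_self, mul_zero] at this
  have h4 : Tendsto (fun n => (cf μ (x n) - cf μ a) ^ 2) atTop (𝓝 0) :=
    squeeze_zero (fun n => sq_nonneg _) (fun n => cf_diff hst hi _ _) h3
  have h5 : Tendsto (fun n => |cf μ (x n) - cf μ a|) atTop (𝓝 0) := by
    have := (Real.continuous_sqrt.tendsto 0).comp h4
    rw [Real.sqrt_zero] at this
    refine this.congr fun n => ?_
    exact Real.sqrt_sq_eq_abs _
  have h6 := (tendsto_zero_iff_abs_tendsto_zero _).2 h5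
  have h7 := h6.add_const (cf μ a)
  rw [zero_add] at h7
  exact h7.congr fun n => sub_add_cancel _ _

end

end Pool.Agent.N878.BR
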