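import Pool.Agent.N878.BR.BochB

/-!
# Integration by parts against plane waves
-/

set_option autoImplicit false
set_option linter.all false

open MeasureTheory Filter Topology ProbabilityTheory
open scoped ContDiff

namespace Pool.Agent.N878.BR

open Pool.Agent.W745.RW (lap dx dy TF)
open Pool.Agent.N661.BR
open Pool.Agent.H506R3.Mag (PSDFun bochner)

/-- integration by parts -/
theorem pt {X Y : ℂ → ℝ} (hX : ContDiff ℝ ∞ X) (hc : HasCompactSupport X) (hY : ContDiff ℝ ∞ Y)
    (v : ℂ) : ∫ z, X z * fderiv ℝ Y z v = - ∫ z, fderiv ℝ X z v * Y z := by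
  have hd : ∀ Z : ℂ → ℝ, ContDiff ℝ ∞ Z → ContDiff ℝ ∞ (fun z => fderiv ℝ Z z v) := fun Z hZ =>
    (hZ.fderiv_right (by simp)).clm_apply contDiff_const
  have hcd : HasCompactSupport (fun z => fderiv ℝ X z v) := hc.fderiv_apply ℝ v
  apply integral_mul_fderiv_eq_neg_fderiv_mul_of_integrable
  · exact ((hd X hX).continuous.mul hY.continuous).integrable_of_hasCompactSupport hcd.mul_right
  · exact (hX.continuous.mul (hd Y hY).continuous).integrable_of_hasCompactSupport hc.mul_right
  · exact (hX.continuous.mul hY.continuous).integrable_of_hasCompactSupport hc.mul_right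
  · intro x _; exact hX.differentiable (by simp) x
  · intro x _; exact hY.differentiable (by simp) x

theorem pt2 {X Y : ℂ → ℝ} (hX : ContDiff ℝ ∞ X) (hc : HasCompactSupport X) (hY : ContDiff ℝ ∞ Y)
    (v : ℂ) : ∫ z, fderiv ℝ (fun y => fderiv ℝ X y v) z v * Y z =
      ∫ z, X z * fderiv ℝ (fun y => fderiv ℝ Y y v) z v := by
  have hd : ∀ Z : ℂ → ℝ, ContDiff ℝ ∞ Z → ContDiff ℝ ∞ (fun z => fderiv ℝ Z z v) := fun Z hZ =>
    (hZ.fderiv_right (by simp)).clm_apply contDiff_const
  have hcd : HasCompactSupport (fun z => fderiv ℝ X z v) := hc.fderiv_apply ℝ v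
  rw [pt hX hc (hd Y hY) v, pt (hd X hX) hcd hY v, neg_neg]

theorem ct_d {X : ℂ → ℝ} (hX : ContDiff ℝ ∞ X) (v : ℂ) :
    ContDiff ℝ ∞ (fun y => fderiv ℝ (fun y => fderiv ℝ X y v) y v) := by
  have hd : ∀ Z : ℂ → ℝ, ContDiff ℝ ∞ Z → ContDiff ℝ ∞ (fun z => fderiv ℝ Z z v) := fun Z hZ =>
    (hZ.fderiv_right (by simp)).clm_apply contDiff_const
  exact hd _ (hd _ hX)

theorem cs_d {X : ℂ → ℝ} (hc : HasCompactSupport X) (v : ℂ) :
    HasCompactSupport (fun y => fderiv ℝ (fun y => fderiv ℝ X y v) y v) := by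
  have hcd : HasCompactSupport (fun z => fderiv ℝ X z v) := hc.fderiv_apply ℝ v
  exact hcd.fderiv_apply ℝ v

/-- the test function `Δφ + φ` -/
noncomputable def tf (φ : ℂ → ℝ) (y : ℂ) : ℝ := lap φ y + φ y

theorem tf_cont {φ : ℂ → ℝ} (hφ : ContDiff ℝ ∞ φ) : Continuous (tf φ) := by
  exact ((ct_d hφ 1).continuous.add (ct_d hφ Complex.I).continuous).add hφ.continuous

theorem tf_cs {φ : ℂ → ℝ} (hc : HasCompactSupport φ) : HasCompactSupport (tf φ) := by
  exact ((cs_d hc 1).add (cs_d hc Complex.I)).add hc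

theorem tf_int {φ u : ℂ → ℝ} (hφ : ContDiff ℝ ∞ φ) (hc : HasCompactSupport φ)
    (hu : ContDiff ℝ ∞ u) : ∫ y, tf φ y * u y = ∫ y, φ y * (lap u y + u y) := by
  have h1 : ∀ y, tf φ y * u y = fderiv ℝ (fun y => fderiv ℝ φ y 1) y 1 * u y +
      fderiv ℝ (fun y => fderiv ℝ φ y Complex.I) y Complex.I * u y + φ y * u y := by
    intro y
    show (fderiv ℝ (fun y => fderiv ℝ φ y 1) y 1 +
      fderiv ℝ (fun y => fderiv ℝ φ y Complex.I) y Complex.I + φ y) * u y = _
    ring
  have h2 : ∀ y, φ y * (lap u y + u y) = φ y * fderiv ℝ (fun y => fderiv ℝ u y 1) y 1 +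
      φ y * fderiv ℝ (fun y => fderiv ℝ u y Complex.I) y Complex.I + φ y * u y := by
    intro y
    show φ y * (fderiv ℝ (fun y => fderiv ℝ u y 1) y 1 +
      fderiv ℝ (fun y => fderiv ℝ u y Complex.I) y Complex.I + u y) = _
    ring
  simp_rw [h1, h2]
  have i1 : ∀ v, Integrable (fun y => fderiv ℝ (fun y => fderiv ℝ φ y v) y v * u y) := fun v =>
    ((ct_d hφ v).continuous.mul hu.continuous).integrable_of_hasCompactSupport
      (cs_d hc v).mul_right
  have i2 : ∀ v, Integrable (fun y => φ y * fderiv ℝ (fun y => fderiv ℝ u y v) y v) := fun v =>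
    (hφ.continuous.mul (ct_d hu v).continuous).integrable_of_hasCompactSupport hc.mul_right
  have i3 : Integrable (fun y => φ y * u y) :=
    (hφ.continuous.mul hu.continuous).integrable_of_hasCompactSupport hc.mul_right
  have i12 : Integrable (fun y => fderiv ℝ (fun y => fderiv ℝ φ y 1) y 1 * u y +
      fderiv ℝ (fun y => fderiv ℝ φ y Complex.I) y Complex.I * u y) :=
    (i1 1).add (i1 Complex.I)
  have i22 : Integrable (fun y => φ y * fderiv ℝ (fun y => fderiv ℝ u y 1) y 1 +
      φ y * fderiv ℝ (fun y => fderiv ℝ u y Complex.I) y Complex.I) :=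
    (i2 1).add (i2 Complex.I)
  rw [integral_add i12 i3, integral_add (i1 1) (i1 Complex.I), integral_add i22 i3,
    integral_add (i2 1) (i2 Complex.I), pt2 hφ hc hu, pt2 hφ hc hu]

/-- the scalar product -/
def ip (ξ y : ℂ) : ℝ := ξ.re * y.re + ξ.im * y.im

theorem fd_tr (ξ : ℂ) (a b : ℝ) (z v : ℂ) :
    fderiv ℝ (fun y => a * Real.cos (ip ξ y) + b * Real.sin (ip ξ y)) z v =
      (b * ip ξ v) * Real.cos (ip ξ z) + (-(a * ip ξ v)) * Real.sin (ip ξ z) := by
  let L : ℂ →L[ℝ] ℝ := ξ.re • Complex.reCLM + ξ.im • Complex.imCLM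
  have hL : ∀ y, L y = ip ξ y := fun y => by simp [L, ip]
  have h1 : HasFDerivAt (fun y => ip ξ y) L z := by
    have := L.hasFDerivAt (x := z)
    convert this using 1
    funext y
    exact (hL y).symm
  have h2 := ((h1.cos).const_mul a).add ((h1.sin).const_mul b)
  have h3 : HasFDerivAt (fun y => a * Real.cos (ip ξ y) + b * Real.sin (ip ξ y)) _ z := h2
  rw [h3.fderiv]
  simp only [ContinuousLinearMap.add_apply, ContinuousLinearMap.smul_apply, smul_eq_mul, hL]
  ring

theorem lap_tr (ξ : ℂ) (a b : ℝ) (z : ℂ) :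
    lap (fun y => a * Real.cos (ip ξ y) + b * Real.sin (ip ξ y)) z =
      -‖ξ‖ ^ 2 * (a * Real.cos (ip ξ z) + b * Real.sin (ip ξ z)) := by
  have h1 : ∀ v z : ℂ, fderiv ℝ (fun z => fderiv ℝ
      (fun y => a * Real.cos (ip ξ y) + b * Real.sin (ip ξ y)) z v) z v =
      -(ip ξ v) ^ 2 * (a * Real.cos (ip ξ z) + b * Real.sin (ip ξ z)) := by
    intro v z
    simp_rw [fd_tr]
    ring
  show fderiv ℝ (fun z => fderiv ℝ
      (fun y => a * Real.cos (ip ξ y) + b * Real.sin (ip ξ y)) z 1) z 1 +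
    fderiv ℝ (fun z => fderiv ℝ
      (fun y => a * Real.cos (ip ξ y) + b * Real.sin (ip ξ y)) z Complex.I) z Complex.I = _
  rw [h1, h1, ← Complex.normSq_eq_norm_sq, Complex.normSq_apply]
  simp only [ip, Complex.one_re, Complex.one_im, Complex.I_re, Complex.I_im]
  ring

theorem ct_tr (ξ : ℂ) (a b : ℝ) :
    ContDiff ℝ ∞ (fun y => a * Real.cos (ip ξ y) + b * Real.sin (ip ξ y)) := by
  have h1 : ContDiff ℝ ∞ (fun y : ℂ => ip ξ y) := by
    have h2 : ContDiff ℝ ∞ (fun y : ℂ => y.re) := Complex.reCLM.contDiff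
    have h3 : ContDiff ℝ ∞ (fun y : ℂ => y.im) := Complex.imCLM.contDiff
    exact (contDiff_const.mul h2).add (contDiff_const.mul h3)
  exact (contDiff_const.mul h1.cos).add (contDiff_const.mul h1.sin)

/-- the Fourier transform of `Δφ + φ` -/
theorem tf_cos {φ : ℂ → ℝ} (hφ : ContDiff ℝ ∞ φ) (hc : HasCompactSupport φ) (ξ : ℂ) :
    ∫ y, tf φ y * Real.cos (ip ξ y) = (1 - ‖ξ‖ ^ 2) * ∫ y, φ y * Real.cos (ip ξ y) := by
  have h1 := tf_int hφ hc (ct_tr ξ 1 0)
  simp_rw [lap_tr] at h1
  simp only [one_mul, zero_mul, add_zero] at h1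
  rw [h1, ← integral_const_mul]
  refine integral_congr_ae (Eventually.of_forall fun y => ?_)
  show φ y * (-‖ξ‖ ^ 2 * Real.cos (ip ξ y) + Real.cos (ip ξ y)) = _
  ring

/-- `∫ (Δφ + φ) f = 0` for a wave `f` -/
theorem tf_wave {φ : ℂ → ℝ} (hφ : ContDiff ℝ ∞ φ) (hc : HasCompactSupport φ) (f : MW) :
    ∫ y, tf φ y * f y = 0 := by
  rw [tf_int hφ hc f.2.1]
  have : ∀ y, φ y * (lap f.1 y + f y) = 0 := fun y => by rw [f.2.2 y, mul_zero]
  simp_rw [this]
  exact integral_zero _ _

theorem meas_unc : Measurable (fun p : ℂ × MW => p.2 p.1) := by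
  have := measurable_uncurry_of_continuous_of_measurable (u := fun (y : ℂ) (f : MW) => f y)
    (fun f => f.2.1.continuous) (fun y => meas_eval y)
  exact this

/-- the covariance function is a weak solution -/
theorem cf_weak {μ : Measure MW} [IsProbabilityMeasure μ] (hst : IsStationary μ)
    (hi : Integrable (fun f : MW => f 0 ^ 2) μ) {φ : ℂ → ℝ} (hφ : ContDiff ℝ ∞ φ)
    (hc : HasCompactSupport φ) (z : ℂ) : ∫ y, tf φ y * cf μ (y - z) = 0 := by
  have hm : Measurable (fun p : ℂ × MW => tf φ p.1 * (p.2 p.1 * p.2 z)) :=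
    ((tf_cont hφ).measurable.comp measurable_fst).mul
      (meas_unc.mul ((meas_eval z).comp measurable_snd))
  have hint : Integrable (fun p : ℂ × MW => tf φ p.1 * (p.2 p.1 * p.2 z)) (volume.prod μ) := by
    rw [integrable_prod_iff hm.aestronglyMeasurable]
    refine ⟨Eventually.of_forall fun y => (int_mul hst hi y z).const_mul (tf φ y), ?_⟩
    have hb : Integrable (fun y => |tf φ y| * cf μ 0) := by
      exact ((tf_cont hφ).integrable_of_hasCompactSupport (tf_cs hc)).abs.mul_const _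
    refine hb.mono' ?_ (Eventually.of_forall fun y => ?_)
    · exact (hm.norm.aestronglyMeasurable (μ := volume.prod μ)).integral_prod_right'
    · have h1 : ∫ f : MW, ‖tf φ y * (f y * f z)‖ ∂μ = |tf φ y| * ∫ f : MW, |f y * f z| ∂μ := by
        rw [← integral_const_mul]
        exact integral_congr_ae (Eventually.of_forall fun f => by
          simp only [Real.norm_eq_abs, abs_mul])
      rw [Real.norm_eq_abs, h1, abs_of_nonneg (mul_nonneg (abs_nonneg _)
        (integral_nonneg fun f => abs_nonneg _))]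
      refine mul_le_mul_of_nonneg_left ?_ (abs_nonneg _)
      have h2 : ∀ f : MW, |f y * f z| ≤ (1 / 2) * (f y ^ 2 + f z ^ 2) := by
        intro f
        rw [abs_le]
        constructor <;> nlinarith [sq_nonneg (f y + f z), sq_nonneg (f y - f z)]
      have h3 : ∫ f : MW, (1 / 2) * (f y ^ 2 + f z ^ 2) ∂μ = cf μ 0 := by
        rw [integral_const_mul, integral_add (int_sq hst hi y) (int_sq hst hi z), cf_sq hst,
          cf_sq hst]
        ring
      rw [← h3]
      exact integral_mono (int_mul hst hi y z).abs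
        (((int_sq hst hi y).add (int_sq hst hi z)).const_mul _) h2
  have h1 : ∀ y, tf φ y * cf μ (y - z) = ∫ f : MW, tf φ y * (f y * f z) ∂μ := fun y => by
    rw [integral_const_mul, cf_eq hst]
  simp_rw [h1]
  rw [integral_integral_swap (f := fun (y : ℂ) (f : MW) => tf φ y * (f y * f z)) hint]
  have h2 : ∀ f : MW, ∫ y, tf φ y * (f y * f z) = 0 := by
    intro f
    simp_rw [← mul_assoc]
    rw [integral_mul_const, tf_wave hφ hc f, zero_mul]
  simp_rw [h2]
  exact integral_zero _ _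

theorem ip_cont (ξ : ℂ) : Continuous (fun y => ip ξ y) := by
  unfold ip
  fun_prop

theorem ip_cont2 : Continuous (fun p : ℂ × ℂ => ip p.2 p.1) := by
  unfold ip
  fun_prop

/-- the Fourier transform of a weak solution is orthogonal to test functions -/
theorem orth {P : Measure ℂ} [IsProbabilityMeasure P] {G ψ : ℂ → ℝ} (hψ : Continuous ψ)
    (hc : HasCompactSupport ψ) (hG : ∀ x, G x = ∫ ξ, Real.cos (ip ξ x) ∂P)
    (h0 : ∀ z, ∫ y, ψ y * G (y - z) = 0) :
    ∀ᵐ ξ ∂P, ∫ y, ψ y * Real.cos (ip ξ y) = 0 := by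
  have hψi : Integrable ψ := hψ.integrable_of_hasCompactSupport hc
  -- a bound on the product space
  have hint : ∀ F : ℂ × ℂ → ℝ, Measurable F → ∀ C : ℝ, (∀ p, |F p| ≤ C) →
      Integrable (fun p : ℂ × ℂ => ψ p.1 * F p) (volume.prod P) := by
    intro F hF C hC
    have h1 : Integrable (fun p : ℂ × ℂ => ψ p.1 * (1 : ℝ)) (volume.prod P) :=
      hψi.mul_prod (integrable_const (1 : ℝ))
    have h2 : Integrable (fun p : ℂ × ℂ => F p * (ψ p.1 * (1 : ℝ))) (volume.prod P) :=
      h1.bdd_mul hF.aestronglyMeasurable (Eventually.of_forall fun p => by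
        rw [Real.norm_eq_abs]; exact hC p)
    exact h2.congr (Eventually.of_forall fun p => by simp only [mul_one, mul_comm])
  let C : ℂ → ℝ := fun ξ => ∫ y, ψ y * Real.cos (ip ξ y)
  let S : ℂ → ℝ := fun ξ => ∫ y, ψ y * Real.sin (ip ξ y)
  have hCm : Measurable C := by
    have h1 : StronglyMeasurable (fun p : ℂ × ℂ => ψ p.2 * Real.cos (ip p.1 p.2)) := by
      have h2 := hψ.comp continuous_snd (X := ℂ × ℂ)
      have h3 : Continuous (fun p : ℂ × ℂ => ip p.1 p.2) := by unfold ip; fun_prop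
      exact (h2.mul (Real.continuous_cos.comp h3)).stronglyMeasurable
    exact h1.integral_prod_right'.measurable
  have hSm : Measurable S := by
    have h1 : StronglyMeasurable (fun p : ℂ × ℂ => ψ p.2 * Real.sin (ip p.1 p.2)) := by
      have h2 := hψ.comp continuous_snd (X := ℂ × ℂ)
      have h3 : Continuous (fun p : ℂ × ℂ => ip p.1 p.2) := by unfold ip; fun_prop
      exact (h2.mul (Real.continuous_sin.comp h3)).stronglyMeasurable
    exact h1.integral_prod_right'.measurable
  set M : ℝ := ∫ y, |ψ y|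
  have hCb : ∀ ξ, |C ξ| ≤ M := by
    intro ξ
    refine (abs_integral_le_integral_abs).trans (integral_mono_of_nonneg
      (Eventually.of_forall fun y => abs_nonneg _) hψi.abs (Eventually.of_forall fun y => ?_))
    show |ψ y * Real.cos (ip ξ y)| ≤ |ψ y|
    rw [abs_mul]
    exact mul_le_of_le_one_right (abs_nonneg _) (Real.abs_cos_le_one _)
  have hSb : ∀ ξ, |S ξ| ≤ M := by
    intro ξ
    refine (abs_integral_le_integral_abs).trans (integral_mono_of_nonneg
      (Eventually.of_forall fun y => abs_nonneg _) hψi.abs (Eventually.of_forall fun y => ?_))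
    show |ψ y * Real.sin (ip ξ y)| ≤ |ψ y|
    rw [abs_mul]
    exact mul_le_of_le_one_right (abs_nonneg _) (Real.abs_sin_le_one _)
  have icos : ∀ ξ, Integrable (fun y => ψ y * Real.cos (ip ξ y)) := fun ξ =>
    (hψ.mul (Real.continuous_cos.comp (ip_cont ξ))).integrable_of_hasCompactSupport hc.mul_right
  have isin : ∀ ξ, Integrable (fun y => ψ y * Real.sin (ip ξ y)) := fun ξ =>
    (hψ.mul (Real.continuous_sin.comp (ip_cont ξ))).integrable_of_hasCompactSupport hc.mul_right
  have h1 : ∀ z, ∫ ξ, (C ξ * Real.cos (ip ξ z) + S ξ * Real.sin (ip ξ z)) ∂P = 0 := by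
    intro z
    have h2 := h0 z
    simp_rw [hG, ← integral_const_mul] at h2
    rw [integral_integral_swap (f := fun y ξ => ψ y * Real.cos (ip ξ (y - z)))] at h2
    · rw [← h2]
      refine integral_congr_ae (Eventually.of_forall fun ξ => ?_)
      show C ξ * Real.cos (ip ξ z) + S ξ * Real.sin (ip ξ z) = ∫ y, ψ y * Real.cos (ip ξ (y - z))
      have h3 : ∀ y, ψ y * Real.cos (ip ξ (y - z)) = ψ y * Real.cos (ip ξ y) * Real.cos (ip ξ z) +
          ψ y * Real.sin (ip ξ y) * Real.sin (ip ξ z) := by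
        intro y
        have : ip ξ (y - z) = ip ξ y - ip ξ z := by
          simp only [ip, Complex.sub_re, Complex.sub_im]; ring
        rw [this, Real.cos_sub]
        ring
      simp_rw [h3]
      rw [integral_add ((icos ξ).mul_const _) ((isin ξ).mul_const _), integral_mul_const,
        integral_mul_const]
    · refine hint (fun p => Real.cos (ip p.2 (p.1 - z))) ?_ 1 fun p => Real.abs_cos_le_one _
      have : Continuous (fun p : ℂ × ℂ => ip p.2 (p.1 - z)) := by unfold ip; fun_prop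
      exact (Real.continuous_cos.comp this).measurable
  have h2 : ∫ ξ, (C ξ ^ 2 + S ξ ^ 2) ∂P = 0 := by
    have h3 : ∫ z, ψ z * ∫ ξ, (C ξ * Real.cos (ip ξ z) + S ξ * Real.sin (ip ξ z)) ∂P = 0 := by
      simp_rw [h1, mul_zero]
      exact integral_zero _ _
    simp_rw [← integral_const_mul] at h3
    rw [integral_integral_swap (f := fun z ξ =>
      ψ z * (C ξ * Real.cos (ip ξ z) + S ξ * Real.sin (ip ξ z)))] at h3
    · rw [← h3]
      refine integral_congr_ae (Eventually.of_forall fun ξ => ?_)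
      show C ξ ^ 2 + S ξ ^ 2 = ∫ z, ψ z * (C ξ * Real.cos (ip ξ z) + S ξ * Real.sin (ip ξ z))
      have h4 : ∀ z, ψ z * (C ξ * Real.cos (ip ξ z) + S ξ * Real.sin (ip ξ z)) =
          C ξ * (ψ z * Real.cos (ip ξ z)) + S ξ * (ψ z * Real.sin (ip ξ z)) := fun z => by ring
      simp_rw [h4]
      rw [integral_add ((icos ξ).const_mul _) ((isin ξ).const_mul _), integral_const_mul,
        integral_const_mul, sq, sq]
    · refine hint (fun p => C p.2 * Real.cos (ip p.2 p.1) + S p.2 * Real.sin (ip p.2 p.1)) ?_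
        (M + M) fun p => ?_
      · exact ((hCm.comp measurable_snd).mul (Real.continuous_cos.comp ip_cont2).measurable).add
          ((hSm.comp measurable_snd).mul (Real.continuous_sin.comp ip_cont2).measurable)
      · refine (abs_add_le _ _).trans (add_le_add ?_ ?_)
        · rw [abs_mul]
          exact (mul_le_of_le_one_right (abs_nonneg _) (Real.abs_cos_le_one _)).trans (hCb _)
        · rw [abs_mul]
          exact (mul_le_of_le_one_right (abs_nonneg _) (Real.abs_sin_le_one _)).trans (hSb _)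
  have hi : Integrable (fun ξ => C ξ ^ 2 + S ξ ^ 2) P := by
    refine Integrable.of_bound ((hCm.pow_const 2).add (hSm.pow_const 2)).aestronglyMeasurable
      (M ^ 2 + M ^ 2) (Eventually.of_forall fun ξ => ?_)
    rw [Real.norm_eq_abs, abs_of_nonneg (by positivity)]
    have h3 := sq_le_sq' (neg_le_of_abs_le (hCb ξ)) (le_of_abs_le (hCb ξ))
    have h4 := sq_le_sq' (neg_le_of_abs_le (hSb ξ)) (le_of_abs_le (hSb ξ))
    exact add_le_add h3 h4
  have h3 := (integral_eq_zero_iff_of_nonneg (fun ξ => by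
    show 0 ≤ C ξ ^ 2 + S ξ ^ 2
    positivity) hi).1 h2
  filter_upwards [h3] with ξ hξ
  have h4 : C ξ ^ 2 + S ξ ^ 2 = 0 := hξ
  have h5 : C ξ ^ 2 = 0 := by nlinarith [sq_nonneg (C ξ), sq_nonneg (S ξ)]
  exact pow_eq_zero_iff (two_ne_zero) |>.1 h5

end Pool.Agent.N878.BR
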