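import Pool.Agent.N661.BR.Stm6
import Pool.Agent.N878.BR.BochC

/-!
# Trigonometric polynomials which approximate the indicator function of the unit circle
-/

set_option autoImplicit false
set_option linter.all false

open MeasureTheory Filter Topology ProbabilityTheory
open scoped ContDiff RealInnerProductSpace

namespace Pool.Agent.N878.BR

theorem inner_ip (x a : ℂ) : inner ℝ x a = ip x a := by
  rw [Complex.inner]
  simp only [ip, Complex.mul_re, Complex.conj_re, Complex.conj_im]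
  ring

theorem ip_neg (x a : ℂ) : ip (-x) a = -ip x a := by
  simp only [ip, Complex.neg_re, Complex.neg_im]; ring

theorem ip_neg' (x a : ℂ) : ip x (-a) = -ip x a := by
  simp only [ip, Complex.neg_re, Complex.neg_im]; ring

theorem ip_add' (x a b : ℂ) : ip x (a + b) = ip x a + ip x b := by
  simp only [ip, Complex.add_re, Complex.add_im]; ring

theorem ip_sub' (x a b : ℂ) : ip x (a - b) = ip x a - ip x b := by
  simp only [ip, Complex.sub_re, Complex.sub_im]; ring

theorem ip_add (x y a : ℂ) : ip (x + y) a = ip x a + ip y a := by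
  simp only [ip, Complex.add_re, Complex.add_im]; ring

theorem ip_sub (x y a : ℂ) : ip (x - y) a = ip x a - ip y a := by
  simp only [ip, Complex.sub_re, Complex.sub_im]; ring

/-- Stone–Weierstrass -/
theorem sw (F : ℂ → ℝ) (hF : Continuous F) (he : ∀ x, F (-x) = F x) (ε : ℝ) (hε : 0 < ε) :
    ∃ (s : Finset ℂ) (w : ℂ → ℝ), ∀ x, ‖x‖ ≤ 2 →
      |∑ a ∈ s, w a * Real.cos (ip x a) - F x| ≤ ε := by
  have hL : Continuous (fun p : ℂ × ℂ => (innerₗ ℂ) p.1 p.2) := continuous_inner
  have hA : ((BoundedContinuousFunction.charPoly Real.continuous_probChar hL).map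
        (BoundedContinuousFunction.toContinuousMapStarₐ ℂ)).SeparatesPoints := by
    refine BoundedContinuousFunction.separatesPoints_charPoly _
      Real.probChar_ne_one _ ?_
    exact fun v hv ↦ DFunLike.ne_iff.mpr ⟨v, inner_self_ne_zero.mpr hv⟩
  have hA0 := Subalgebra.SeparatesPoints.rclike_to_real hA
  obtain ⟨g, hg, hgb⟩ :=
    ContinuousMap.exists_mem_subalgebra_near_continuous_of_isCompact_of_separatesPoints hA0
      ⟨F, hF⟩ (isCompact_closedBall (0 : ℂ) 2) hε
  rw [Subalgebra.mem_comap] at hg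
  obtain ⟨f, hf, hfg⟩ := hg
  obtain ⟨w, hw⟩ := (BoundedContinuousFunction.mem_charPoly
    (he := Real.continuous_probChar) (hL := hL) f).1 hf
  have h1 : ∀ x, ((g x : ℝ) : ℂ) = ∑ a ∈ w.coeff.support,
      w.coeff a * Complex.exp ((ip x a : ℝ) * Complex.I) := by
    intro x
    have h2 : f x = ((g x : ℝ) : ℂ) := congrArg (fun h : C(ℂ, ℂ) => h x) hfg
    rw [← h2]
    have h3 := congrFun hw x
    rw [h3, Finsupp.sum]
    refine Finset.sum_congr rfl fun a _ => ?_
    rw [Real.probChar_apply, innerₗ_apply_apply, inner_ip]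
  have h2 : ∀ x, ((g x : ℝ) + g (-x)) / 2 = ∑ a ∈ w.coeff.support,
      (w.coeff a).re * Real.cos (ip x a) := by
    intro x
    have h3 : (((g x : ℝ) + g (-x) : ℝ) : ℂ) = ∑ a ∈ w.coeff.support,
        w.coeff a * ((2 * Real.cos (ip x a) : ℝ) : ℂ) := by
      push_cast
      rw [h1, h1, ← Finset.sum_add_distrib]
      refine Finset.sum_congr rfl fun a _ => ?_
      rw [ip_neg, Complex.cos]
      push_cast
      ring
    have h4 := congrArg Complex.re h3
    rw [Complex.ofReal_re, Complex.re_sum] at h4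
    rw [h4, Finset.sum_div]
    refine Finset.sum_congr rfl fun a _ => ?_
    rw [Complex.re_mul_ofReal]
    ring
  refine ⟨w.coeff.support, fun a => (w.coeff a).re, fun x hx => ?_⟩
  rw [← h2]
  have e1 := (hgb x (by rw [mem_closedBall_zero_iff]; exact hx)).le
  have e2 := (hgb (-x) (by rw [mem_closedBall_zero_iff, norm_neg]; exact hx)).le
  rw [Real.norm_eq_abs] at e1 e2
  have e3 : |g x - F x| ≤ ε := e1
  have e4 : |g (-x) - F (-x)| ≤ ε := e2
  rw [he] at e4
  rw [abs_le] at e3 e4 ⊢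
  constructor <;> linarith [e3.1, e3.2, e4.1, e4.2]

/-- the points `a`, `-a` -/
def pnt (i : ℂ × Bool) : ℂ := if i.2 then i.1 else -i.1

/-- approximations of the indicator function of the unit circle -/
theorem sw2 : ∃ (s : ℕ → Finset (ℂ × Bool)) (w : ℕ → ℂ × Bool → ℝ),
    (∀ n x, ∑ i ∈ s n, w n i * Real.sin (ip x (pnt i)) = 0) ∧
    (∀ n x, ‖x‖ ≤ 2 → |∑ i ∈ s n, w n i * Real.cos (ip x (pnt i))| ≤ 2) ∧
    (∀ x, ‖x‖ ≤ 2 → ‖x‖ = 1 →
      Tendsto (fun n => ∑ i ∈ s n, w n i * Real.cos (ip x (pnt i))) atTop (𝓝 1)) ∧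
    (∀ x, ‖x‖ ≤ 2 → ‖x‖ ≠ 1 →
      Tendsto (fun n => ∑ i ∈ s n, w n i * Real.cos (ip x (pnt i))) atTop (𝓝 0)) := by
  let F : ℕ → ℂ → ℝ := fun n x => 1 / (1 + (n : ℝ) * (‖x‖ - 1) ^ 2)
  have hpos : ∀ (n : ℕ) (x : ℂ), 1 ≤ 1 + (n : ℝ) * (‖x‖ - 1) ^ 2 := fun n x => by
    have : 0 ≤ (n : ℝ) * (‖x‖ - 1) ^ 2 := by positivity
    linarith
  have hFc : ∀ n, Continuous (F n) := fun n => by
    refine continuous_const.div (by fun_prop) fun x => ?_
    exact (lt_of_lt_of_le one_pos (hpos n x)).ne'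
  have hFe : ∀ n x, F n (-x) = F n x := fun n x => by simp only [F, norm_neg]
  have hFb : ∀ n x, |F n x| ≤ 1 := fun n x => by
    simp only [F]
    rw [abs_of_nonneg (by positivity), div_le_one (lt_of_lt_of_le one_pos (hpos n x))]
    exact hpos n x
  choose s w h using fun n : ℕ => sw (F n) (hFc n) (hFe n) (1 / ((n : ℝ) + 1)) (by positivity)
  have hsum : ∀ (n : ℕ) (φ : ℝ → ℝ) (x : ℂ), ∑ i ∈ s n ×ˢ (Finset.univ : Finset Bool),
      w n i.1 / 2 * φ (ip x (pnt i)) =
      ∑ a ∈ s n, w n a / 2 * (φ (ip x a) + φ (-ip x a)) := by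
    intro n φ x
    rw [Finset.sum_product]
    refine Finset.sum_congr rfl fun a _ => ?_
    rw [Fintype.sum_bool]
    simp only [pnt, if_true, if_false, Bool.false_eq_true]
    rw [ip_neg']
    ring
  have hcos : ∀ (n : ℕ) (x : ℂ), ∑ i ∈ s n ×ˢ (Finset.univ : Finset Bool),
      w n i.1 / 2 * Real.cos (ip x (pnt i)) = ∑ a ∈ s n, w n a * Real.cos (ip x a) := by
    intro n x
    rw [hsum n Real.cos x]
    refine Finset.sum_congr rfl fun a _ => ?_
    rw [Real.cos_neg]
    ring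
  have hone : Tendsto (fun n : ℕ => 1 / ((n : ℝ) + 1)) atTop (𝓝 0) :=
    tendsto_one_div_add_atTop_nhds_zero_nat
  have hlim : ∀ x, ‖x‖ ≤ 2 → ∀ L, Tendsto (fun n => F n x) atTop (𝓝 L) →
      Tendsto (fun n => ∑ a ∈ s n, w n a * Real.cos (ip x a)) atTop (𝓝 L) := by
    intro x hx L hL
    have h1 : Tendsto (fun n => ∑ a ∈ s n, w n a * Real.cos (ip x a) - F n x) atTop (𝓝 0) :=
      squeeze_zero_norm (fun n => by rw [Real.norm_eq_abs]; exact h n x hx) hone
    have h2 := h1.add hL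
    rw [zero_add] at h2
    exact h2.congr fun n => sub_add_cancel _ _
  refine ⟨fun n => s n ×ˢ (Finset.univ : Finset Bool), fun n i => w n i.1 / 2,
    fun n x => ?_, fun n x hx => ?_, fun x hx hx1 => ?_, fun x hx hx1 => ?_⟩
  · rw [hsum n Real.sin x]
    refine Finset.sum_eq_zero fun a _ => ?_
    rw [Real.sin_neg, add_neg_cancel, mul_zero]
  · rw [hcos]
    have h1 := h n x hx
    have h2 := hFb n x
    have h3 : 1 / ((n : ℝ) + 1) ≤ 1 := by
      rw [div_le_one (by positivity)]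
      have : (0 : ℝ) ≤ n := Nat.cast_nonneg n
      linarith
    rw [abs_le] at h1 h2 ⊢
    constructor <;> linarith [h1.1, h1.2, h2.1, h2.2]
  · simp_rw [hcos]
    refine hlim x hx 1 ?_
    have : ∀ n, F n x = 1 := fun n => by simp [F, hx1]
    simp_rw [this]
    exact tendsto_const_nhds
  · simp_rw [hcos]
    refine hlim x hx 0 ?_
    have h1 : 0 < (‖x‖ - 1) ^ 2 := by
      have : ‖x‖ - 1 ≠ 0 := sub_ne_zero.2 hx1
      positivity
    have h2 : Tendsto (fun n : ℕ => 1 + (n : ℝ) * (‖x‖ - 1) ^ 2) atTop atTop :=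
      tendsto_atTop_add_const_left _ _ (tendsto_natCast_atTop_atTop.atTop_mul_const h1)
    exact tendsto_const_nhds.div_atTop h2

end Pool.Agent.N878.BR
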