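import Pool.Agent.N878.BR.ThreeA

/-!
# Directions without atoms: quadratic forms in the covariance function
-/

set_option autoImplicit false
set_option linter.all false

open MeasureTheory Filter Topology ProbabilityTheory
open scoped ContDiff RealInnerProductSpace

namespace Pool.Agent.N878.BR

open Pool.Agent.N661.BR (cov parallel)

/-- the unit vector of direction `α` -/
noncomputable def ev (α : ℝ) : ℂ := ⟨Real.cos α, Real.sin α⟩

theorem ev_cont : Continuous ev := by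
  have : ev = fun α : ℝ => ((Real.cos α : ℝ) : ℂ) + ((Real.sin α : ℝ) : ℂ) * Complex.I := by
    funext α
    exact (Complex.mk_eq_add_mul_I _ _)
  rw [this]
  exact (Complex.continuous_ofReal.comp Real.continuous_cos).add
    ((Complex.continuous_ofReal.comp Real.continuous_sin).mul continuous_const)

theorem ev_norm (α : ℝ) : ‖ev α‖ = 1 := by
  have h : ‖ev α‖ ^ 2 = 1 := by
    rw [← Complex.normSq_eq_norm_sq, Complex.normSq_apply]
    simp only [ev]
    nlinarith [Real.sin_sq_add_cos_sq α]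
  exact (pow_eq_one_iff_of_nonneg (norm_nonneg _) two_ne_zero).1 h

theorem ev_add (α β : ℝ) : ‖ev α + ev β‖ ^ 2 = 2 + 2 * Real.cos (α - β) := by
  rw [← Complex.normSq_eq_norm_sq, Complex.normSq_apply]
  simp only [ev, Complex.add_re, Complex.add_im]
  rw [Real.cos_sub]
  nlinarith [Real.sin_sq_add_cos_sq α, Real.sin_sq_add_cos_sq β]

theorem ev_sub (α β : ℝ) : ‖ev α - ev β‖ ^ 2 = 2 - 2 * Real.cos (α - β) := by
  rw [← Complex.normSq_eq_norm_sq, Complex.normSq_apply]
  simp only [ev, Complex.sub_re, Complex.sub_im]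
  rw [Real.cos_sub]
  nlinarith [Real.sin_sq_add_cos_sq α, Real.sin_sq_add_cos_sq β]

theorem ev_add_le (α β : ℝ) : ‖ev α + ev β‖ ≤ 2 := by
  refine (norm_add_le _ _).trans ?_
  rw [ev_norm, ev_norm]; norm_num

theorem ev_sub_le (α β : ℝ) : ‖ev α - ev β‖ ≤ 2 := by
  refine (norm_sub_le _ _).trans ?_
  rw [ev_norm, ev_norm]; norm_num

theorem cov_ev (ν : Measure ℝ) (w : ℂ) : cov ν w = ∫ α, Real.cos (ip (ev α) w) ∂ν := by
  unfold cov
  refine integral_congr_ae (Eventually.of_forall fun α => ?_)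
  show Real.cos (w.re * Real.cos α + w.im * Real.sin α) = Real.cos (ip (ev α) w)
  congr 1
  simp only [ip, ev]
  ring

/-- the trigonometric polynomial with the weights `w` -/
noncomputable def KK (s : Finset (ℂ × Bool)) (w : ℂ × Bool → ℝ) (x : ℂ) : ℝ :=
  ∑ i ∈ s, w i * Real.cos (ip x (pnt i))

theorem KK_cont (s : Finset (ℂ × Bool)) (w : ℂ × Bool → ℝ) : Continuous (KK s w) := by
  unfold KK ip
  fun_prop

theorem sumcos {s : Finset (ℂ × Bool)} {w : ℂ × Bool → ℝ}
    (hs : ∀ x, ∑ i ∈ s, w i * Real.sin (ip x (pnt i)) = 0) (x : ℂ) (φ : ℝ) :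
    ∑ i ∈ s, ∑ j ∈ s, w i * w j * Real.cos (φ + ip x (pnt j - pnt i)) =
      Real.cos φ * KK s w x ^ 2 := by
  have h1 : ∀ i j, w i * w j * Real.cos (φ + ip x (pnt j - pnt i)) =
      Real.cos φ * ((w i * Real.cos (ip x (pnt i))) * (w j * Real.cos (ip x (pnt j)))) +
      Real.cos φ * ((w i * Real.sin (ip x (pnt i))) * (w j * Real.sin (ip x (pnt j)))) -
      Real.sin φ * ((w i * Real.cos (ip x (pnt i))) * (w j * Real.sin (ip x (pnt j)))) +
      Real.sin φ * ((w i * Real.sin (ip x (pnt i))) * (w j * Real.cos (ip x (pnt j)))) := by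
    intro i j
    rw [ip_sub', Real.cos_add, Real.cos_sub, Real.sin_sub]
    ring
  simp_rw [h1, Finset.sum_add_distrib, Finset.sum_sub_distrib, Finset.sum_add_distrib,
    ← Finset.mul_sum, ← Finset.sum_mul, hs]
  rw [KK]
  ring

theorem sum2 {Ω ι : Type*} [MeasurableSpace Ω] {M : Measure Ω} (s : Finset ι)
    (g : ι → ι → Ω → ℝ) (hg : ∀ i j, Integrable (g i j) M) :
    ∑ i ∈ s, ∑ j ∈ s, ∫ x, g i j x ∂M = ∫ x, ∑ i ∈ s, ∑ j ∈ s, g i j x ∂M := by
  rw [integral_finsetSum]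
  · refine Finset.sum_congr rfl fun i _ => ?_
    rw [integral_finsetSum]
    exact fun j _ => hg i j
  · exact fun i _ => integrable_finsetSum _ fun j _ => hg i j

theorem intc {ν : Measure ℝ} [IsProbabilityMeasure ν] {g : ℝ → ℝ} (hg : Continuous g) (C : ℝ)
    (hC : ∀ x, |g x| ≤ C) : Integrable g ν :=
  Integrable.of_bound hg.aestronglyMeasurable C (Eventually.of_forall fun x => by
    rw [Real.norm_eq_abs]; exact hC x)

theorem intc2 {ν : Measure (ℝ × ℝ)} [IsProbabilityMeasure ν] {g : ℝ × ℝ → ℝ} (hg : Continuous g)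
    (C : ℝ) (hC : ∀ x, |g x| ≤ C) : Integrable g ν :=
  Integrable.of_bound hg.aestronglyMeasurable C (Eventually.of_forall fun x => by
    rw [Real.norm_eq_abs]; exact hC x)

theorem ipev_cont (u : ℂ) : Continuous (fun α : ℝ => ip (ev α) u) := by
  have := ev_cont
  unfold ip
  fun_prop

theorem HH {ν : Measure ℝ} [IsProbabilityMeasure ν] {s : Finset (ℂ × Bool)} {w : ℂ × Bool → ℝ}
    (hs : ∀ x, ∑ i ∈ s, w i * Real.sin (ip x (pnt i)) = 0) (u u' : ℂ) :
    ∑ i ∈ s, ∑ j ∈ s, w i * w j * (cov ν (u + (pnt j - pnt i)) * cov ν (u' + (pnt j - pnt i))) =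
      ∫ p : ℝ × ℝ, (1 / 2) * (Real.cos (ip (ev p.1) u + ip (ev p.2) u') *
          KK s w (ev p.1 + ev p.2) ^ 2 +
        Real.cos (ip (ev p.1) u - ip (ev p.2) u') * KK s w (ev p.1 - ev p.2) ^ 2)
        ∂(ν.prod ν) := by
  have h1 : ∀ x y : ℂ, cov ν x * cov ν y =
      ∫ p : ℝ × ℝ, Real.cos (ip (ev p.1) x) * Real.cos (ip (ev p.2) y) ∂(ν.prod ν) := by
    intro x y
    rw [cov_ev, cov_ev, ← integral_prod_mul]
  have hc : ∀ x y : ℂ, Integrable (fun p : ℝ × ℝ =>
      Real.cos (ip (ev p.1) x) * Real.cos (ip (ev p.2) y)) (ν.prod ν) := by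
    intro x y
    refine intc2 ?_ 1 fun p => ?_
    · exact (Real.continuous_cos.comp ((ipev_cont x).comp continuous_fst)).mul
        (Real.continuous_cos.comp ((ipev_cont y).comp continuous_snd))
    · rw [abs_mul]
      exact mul_le_one₀ (Real.abs_cos_le_one _) (abs_nonneg _) (Real.abs_cos_le_one _)
  have h2 : ∀ i j, w i * w j * (cov ν (u + (pnt j - pnt i)) * cov ν (u' + (pnt j - pnt i))) =
      ∫ p : ℝ × ℝ, w i * w j * (Real.cos (ip (ev p.1) (u + (pnt j - pnt i))) *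
        Real.cos (ip (ev p.2) (u' + (pnt j - pnt i)))) ∂(ν.prod ν) := by
    intro i j
    rw [h1, ← integral_const_mul]
  have h3 : ∀ p : ℝ × ℝ, ∑ i ∈ s, ∑ j ∈ s, w i * w j *
      (Real.cos (ip (ev p.1) (u + (pnt j - pnt i))) *
        Real.cos (ip (ev p.2) (u' + (pnt j - pnt i)))) = (1 / 2) *
        (Real.cos (ip (ev p.1) u + ip (ev p.2) u') * KK s w (ev p.1 + ev p.2) ^ 2 +
        Real.cos (ip (ev p.1) u - ip (ev p.2) u') * KK s w (ev p.1 - ev p.2) ^ 2) := by
    intro p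
    rw [← sumcos hs (ev p.1 + ev p.2) (ip (ev p.1) u + ip (ev p.2) u'),
      ← sumcos hs (ev p.1 - ev p.2) (ip (ev p.1) u - ip (ev p.2) u'),
      ← Finset.sum_add_distrib, Finset.mul_sum]
    refine Finset.sum_congr rfl fun i _ => ?_
    rw [← Finset.sum_add_distrib, Finset.mul_sum]
    refine Finset.sum_congr rfl fun j _ => ?_
    have e : ∀ A B a b : ℝ, Real.cos (A + a) * Real.cos (B + b) =
        (1 / 2) * (Real.cos (A + B + (a + b)) + Real.cos (A - B + (a - b))) := by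
      intro A B a b
      rw [show A + B + (a + b) = (A + a) + (B + b) by ring,
        show A - B + (a - b) = (A + a) - (B + b) by ring, Real.cos_add (A + a) (B + b),
        Real.cos_sub (A + a) (B + b)]
      ring
    rw [ip_add' (ev p.1) u, ip_add' (ev p.2) u', e, ip_add, ip_sub]
    ring
  have h4 : ∑ i ∈ s, ∑ j ∈ s, w i * w j *
      (cov ν (u + (pnt j - pnt i)) * cov ν (u' + (pnt j - pnt i))) =
      ∑ i ∈ s, ∑ j ∈ s, ∫ p : ℝ × ℝ, w i * w j *
      (Real.cos (ip (ev p.1) (u + (pnt j - pnt i))) *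
        Real.cos (ip (ev p.2) (u' + (pnt j - pnt i)))) ∂(ν.prod ν) :=
    Finset.sum_congr rfl fun i _ => Finset.sum_congr rfl fun j _ => h2 i j
  rw [h4]
  refine (sum2 s (fun i j (p : ℝ × ℝ) => w i * w j *
      (Real.cos (ip (ev p.1) (u + (pnt j - pnt i))) *
        Real.cos (ip (ev p.2) (u' + (pnt j - pnt i))))) (fun i j => (hc _ _).const_mul _)).trans ?_
  exact integral_congr_ae (Eventually.of_forall h3)

/-- two directions of angle `π / 3` or `2 π / 3` have probability zero -/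
theorem null {ν : Measure ℝ} [IsProbabilityMeasure ν] (h : parallel ν = 0) :
    ∀ᵐ p : ℝ × ℝ ∂(ν.prod ν), ‖ev p.1 + ev p.2‖ ≠ 1 ∧ ‖ev p.1 - ev p.2‖ ≠ 1 := by
  have hm : ∀ θ : ℝ, MeasurableSet {p : ℝ × ℝ | Real.sin (p.1 - p.2 - θ) = 0} := fun θ =>
    (isClosed_singleton.preimage (f := fun p : ℝ × ℝ => Real.sin (p.1 - p.2 - θ))
      (by fun_prop)).measurableSet
  have h0 : (ν.prod ν) {p : ℝ × ℝ | Real.sin (p.2 - p.1 - 0) = 0} = 0 := by
    have h1 : (ν.prod ν) {p : ℝ × ℝ | Real.sin (p.1 - p.2) = 0} = 0 := by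
      unfold parallel at h
      rw [measureReal_def, ENNReal.toReal_eq_zero_iff] at h
      exact h.resolve_right (measure_ne_top _ _)
    rw [← h1]
    congr 1
    ext p
    simp only [Set.mem_setOf_eq, sub_zero]
    rw [← neg_sub p.1 p.2, Real.sin_neg, neg_eq_zero]
  have hm0 : MeasurableSet {p : ℝ × ℝ | Real.sin (p.2 - p.1 - 0) = 0} :=
    (isClosed_singleton.preimage (f := fun p : ℝ × ℝ => Real.sin (p.2 - p.1 - 0))
      (by fun_prop)).measurableSet
  rw [Measure.measure_prod_null hm0] at h0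
  -- each class has measure zero
  have h2 : ∀ b : ℝ, ν {a | Real.sin (a - b) = 0} = 0 := by
    intro b
    by_contra hb
    have h3 : ∀ᵐ c ∂ν, c ∈ {a | Real.sin (a - b) = 0}ᶜ := by
      filter_upwards [h0] with c hc hcb
      have hcb' : Real.sin (c - b) = 0 := hcb
      refine hb ?_
      have hc' : ν {a | Real.sin (a - c) = 0} = 0 := by
        have : (Prod.mk c ⁻¹' {p : ℝ × ℝ | Real.sin (p.2 - p.1 - 0) = 0}) =
            {a | Real.sin (a - c) = 0} := by
          ext a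
          simp
        rw [← this]
        exact hc
      refine measure_mono_null (fun a ha => ?_) hc'
      have ha' : Real.sin (a - b) = 0 := ha
      show Real.sin (a - c) = 0
      rw [show a - c = (a - b) - (c - b) by ring, Real.sin_sub, ha', hcb']
      ring
    exact hb (measure_eq_zero_iff_ae_notMem.2 h3)
  have h4 : ∀ θ : ℝ, (ν.prod ν) {p : ℝ × ℝ | Real.sin (p.2 - p.1 - θ) = 0} = 0 := by
    intro θ
    have hmθ : MeasurableSet {p : ℝ × ℝ | Real.sin (p.2 - p.1 - θ) = 0} :=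
      (isClosed_singleton.preimage (f := fun p : ℝ × ℝ => Real.sin (p.2 - p.1 - θ))
        (by fun_prop)).measurableSet
    rw [Measure.measure_prod_null hmθ]
    refine Eventually.of_forall fun b => ?_
    have : (Prod.mk b ⁻¹' {p : ℝ × ℝ | Real.sin (p.2 - p.1 - θ) = 0}) =
        {a | Real.sin (a - (b + θ)) = 0} := by
      ext a
      simp only [Set.mem_preimage, Set.mem_setOf_eq]
      rw [sub_sub]
    show ν (Prod.mk b ⁻¹' {p : ℝ × ℝ | Real.sin (p.2 - p.1 - θ) = 0}) = 0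
    rw [this]
    exact h2 _
  have h5 : ∀ θ : ℝ, ∀ᵐ p : ℝ × ℝ ∂(ν.prod ν), Real.sin (p.2 - p.1 - θ) ≠ 0 := fun θ =>
    measure_eq_zero_iff_ae_notMem.1 (h4 θ)
  filter_upwards [h5 (Real.pi / 3), h5 (-(Real.pi / 3))] with p hp1 hp2
  have h6 : ∀ c : ℝ, Real.cos (p.1 - p.2) = c → c ^ 2 ≠ 1 / 4 := by
    intro c hc hc2
    have h7 : Real.sin (p.2 - p.1 - Real.pi / 3) * Real.sin (p.2 - p.1 - -(Real.pi / 3)) = 0 := by
      have h8 : Real.cos (p.2 - p.1) ^ 2 = 1 / 4 := by
        rw [← neg_sub p.1 p.2, Real.cos_neg, hc, hc2]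
      have h9 := Real.sin_sq_add_cos_sq (p.2 - p.1)
      rw [sub_neg_eq_add, Real.sin_sub, Real.sin_add, Real.cos_pi_div_three,
        Real.sin_pi_div_three]
      have h10 : √3 ^ 2 = 3 := Real.sq_sqrt (by norm_num)
      nlinarith
    rcases mul_eq_zero.1 h7 with h8 | h8
    · exact hp1 h8
    · exact hp2 h8
  constructor
  · intro h7
    have h8 := ev_add p.1 p.2
    rw [h7] at h8
    exact h6 (-1 / 2) (by linarith) (by norm_num)
  · intro h7
    have h8 := ev_sub p.1 p.2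
    rw [h7] at h8
    exact h6 (1 / 2) (by linarith) (by norm_num)

/-- the two facts on the approximating weights which are used -/
structure Good (s : ℕ → Finset (ℂ × Bool)) (w : ℕ → ℂ × Bool → ℝ) : Prop where
  sin : ∀ n x, ∑ i ∈ s n, w n i * Real.sin (ip x (pnt i)) = 0
  bdd : ∀ n x, ‖x‖ ≤ 2 → |KK (s n) (w n) x| ≤ 2
  one : ∀ x, ‖x‖ ≤ 2 → ‖x‖ = 1 → Tendsto (fun n => KK (s n) (w n) x) atTop (𝓝 1)
  zero : ∀ x, ‖x‖ ≤ 2 → ‖x‖ ≠ 1 → Tendsto (fun n => KK (s n) (w n) x) atTop (𝓝 0)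

theorem HH_lim {ν : Measure ℝ} [IsProbabilityMeasure ν] (h : parallel ν = 0)
    {s : ℕ → Finset (ℂ × Bool)} {w : ℕ → ℂ × Bool → ℝ} (hg : Good s w) (u u' : ℂ) :
    Tendsto (fun n => ∑ i ∈ s n, ∑ j ∈ s n, w n i * w n j *
      (cov ν (u + (pnt j - pnt i)) * cov ν (u' + (pnt j - pnt i)))) atTop (𝓝 0) := by
  simp_rw [fun n => HH (ν := ν) (hg.sin n) u u']
  have h1 : ∫ p : ℝ × ℝ, (0 : ℝ) ∂(ν.prod ν) = 0 := integral_zero _ _
  rw [← h1]
  have hp : Continuous (fun p : ℝ × ℝ => ev p.1 + ev p.2) :=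
    (ev_cont.comp continuous_fst).add (ev_cont.comp continuous_snd)
  have hm : Continuous (fun p : ℝ × ℝ => ev p.1 - ev p.2) :=
    (ev_cont.comp continuous_fst).sub (ev_cont.comp continuous_snd)
  have c1 : Continuous (fun p : ℝ × ℝ => ip (ev p.1) u) := (ipev_cont u).comp continuous_fst
  have c2 : Continuous (fun p : ℝ × ℝ => ip (ev p.2) u') := (ipev_cont u').comp continuous_snd
  refine tendsto_integral_of_dominated_convergence (fun _ => 4) (fun n => ?_)
    (integrable_const _) (fun n => Eventually.of_forall fun p => ?_) ?_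
  · refine Continuous.aestronglyMeasurable ?_
    exact continuous_const.mul (((Real.continuous_cos.comp (c1.add c2)).mul
      (((KK_cont (s n) (w n)).comp hp).pow 2)).add ((Real.continuous_cos.comp (c1.sub c2)).mul
      (((KK_cont (s n) (w n)).comp hm).pow 2)))
  · have b1 := hg.bdd n _ (ev_add_le p.1 p.2)
    have b2 := hg.bdd n _ (ev_sub_le p.1 p.2)
    have b3 : KK (s n) (w n) (ev p.1 + ev p.2) ^ 2 ≤ 4 := by
      rw [abs_le] at b1; nlinarith [b1.1, b1.2]
    have b4 : KK (s n) (w n) (ev p.1 - ev p.2) ^ 2 ≤ 4 := by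
      rw [abs_le] at b2; nlinarith [b2.1, b2.2]
    have b5 : ∀ (x y : ℝ), 0 ≤ y → y ≤ 4 → |Real.cos x * y| ≤ 4 := by
      intro x y hy hy4
      rw [abs_mul, abs_of_nonneg hy]
      nlinarith [Real.abs_cos_le_one x, abs_nonneg (Real.cos x)]
    rw [Real.norm_eq_abs, abs_mul, abs_of_pos (by norm_num : (0 : ℝ) < 1 / 2)]
    have b6 := abs_add_le (Real.cos (ip (ev p.1) u + ip (ev p.2) u') *
          KK (s n) (w n) (ev p.1 + ev p.2) ^ 2) (Real.cos (ip (ev p.1) u - ip (ev p.2) u') *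
          KK (s n) (w n) (ev p.1 - ev p.2) ^ 2)
    have b7 := b5 (ip (ev p.1) u + ip (ev p.2) u') _ (sq_nonneg _) b3
    have b8 := b5 (ip (ev p.1) u - ip (ev p.2) u') _ (sq_nonneg _) b4
    linarith
  · filter_upwards [null h] with p hp
    have t1 := (hg.zero _ (ev_add_le p.1 p.2) hp.1).pow 2
    have t2 := (hg.zero _ (ev_sub_le p.1 p.2) hp.2).pow 2
    have t3 := ((t1.const_mul (Real.cos (ip (ev p.1) u + ip (ev p.2) u'))).add
      (t2.const_mul (Real.cos (ip (ev p.1) u - ip (ev p.2) u')))).const_mul (1 / 2)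
    have e : (1 / 2 : ℝ) * (Real.cos (ip (ev p.1) u + ip (ev p.2) u') * 0 ^ 2 +
        Real.cos (ip (ev p.1) u - ip (ev p.2) u') * 0 ^ 2) = 0 := by ring
    rw [e] at t3
    exact t3

theorem one_lim {ν : Measure ℝ} [IsProbabilityMeasure ν]
    {s : ℕ → Finset (ℂ × Bool)} {w : ℕ → ℂ × Bool → ℝ} (hg : Good s w) :
    Tendsto (fun n => ∫ α, (KK (s n) (w n) (ev α) - 1) ^ 2 ∂ν) atTop (𝓝 0) := by
  have h1 : ∫ p : ℝ, (0 : ℝ) ∂ν = 0 := integral_zero _ _
  rw [← h1]
  have hn : ∀ α, ‖ev α‖ ≤ 2 := fun α => by rw [ev_norm]; norm_num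
  refine tendsto_integral_of_dominated_convergence (fun _ => 9) (fun n => ?_)
    (integrable_const _) (fun n => Eventually.of_forall fun p => ?_)
    (Eventually.of_forall fun p => ?_)
  · exact ((((KK_cont (s n) (w n)).comp ev_cont).sub continuous_const).pow 2).aestronglyMeasurable
  · have b1 := hg.bdd n _ (hn p)
    rw [Real.norm_eq_abs, abs_of_nonneg (sq_nonneg _)]
    rw [abs_le] at b1
    nlinarith [b1.1, b1.2]
  · have t1 := ((hg.one _ (hn p) (ev_norm p)).sub_const 1).pow 2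
    have e : ((1 : ℝ) - 1) ^ 2 = 0 := by norm_num
    rw [e] at t1
    exact t1

end Pool.Agent.N878.BR
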